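import Pool.Agent.Helper6.HG.Defs3
import Mathlib.Algebra.Lie.Engel

/-!
# Engel's theorem and semisimplicity
-/

set_option autoImplicit false

open NumberField MU MT HD

namespace HG

namespace H72

attribute [local instance 100] LieRing.ofAssociativeRing

variable {K : Type} [Field K] {n : ℕ}

/-- the restrictions to the subspace `W` of the matrices in `U`, as a Lie algebra -/
def resL (U : Submodule K (Matrix (Fin n) (Fin n) K))
    (hU : ∀ A ∈ U, ∀ B ∈ U, A * B - B * A ∈ U) (W : Submodule K (Fin n → K)) :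
    LieSubalgebra K (Module.End K W) where
  carrier := {f | ∃ A ∈ U, ∀ v : W, ((f v : W) : Fin n → K) = A.mulVec v}
  add_mem' := by
    rintro f g ⟨A, hA, hf⟩ ⟨B, hB, hg⟩
    refine ⟨A + B, U.add_mem hA hB, fun v => ?_⟩
    rw [LinearMap.add_apply, Submodule.coe_add, hf, hg, Matrix.add_mulVec]
  zero_mem' := ⟨0, U.zero_mem, fun v => by simp⟩
  smul_mem' := by
    rintro c f ⟨A, hA, hf⟩
    refine ⟨c • A, U.smul_mem c hA, fun v => ?_⟩
    rw [LinearMap.smul_apply, Submodule.coe_smul, hf, Matrix.smul_mulVec]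
  lie_mem' := by
    rintro f g ⟨A, hA, hf⟩ ⟨B, hB, hg⟩
    refine ⟨A * B - B * A, hU A hA B hB, fun v => ?_⟩
    rw [Ring.lie_def, LinearMap.sub_apply, Submodule.coe_sub, Module.End.mul_apply,
      Module.End.mul_apply, hf, hg, hg, hf, Matrix.sub_mulVec, Matrix.mulVec_mulVec,
      Matrix.mulVec_mulVec]

/-- Engel: nilpotent matrices which form a Lie algebra have a common kernel vector in every
stable subspace which is not zero -/
theorem engel (U : Submodule K (Matrix (Fin n) (Fin n) K))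
    (hU : ∀ A ∈ U, ∀ B ∈ U, A * B - B * A ∈ U) (hnil : ∀ A ∈ U, IsNilpotent A)
    (W : Submodule K (Fin n → K)) (hW : ∀ A ∈ U, ∀ v ∈ W, A.mulVec v ∈ W) (hne : W ≠ ⊥) :
    ∃ v ∈ W, v ≠ 0 ∧ ∀ A ∈ U, A.mulVec v = 0 := by
  have hpow : ∀ (A : Matrix (Fin n) (Fin n) K) (f : Module.End K W),
      (∀ v : W, ((f v : W) : Fin n → K) = A.mulVec v) → ∀ (k : ℕ) (v : W),
      (((f ^ k) v : W) : Fin n → K) = (A ^ k).mulVec v := by
    intro A f hf k
    induction k with
    | zero => intro v; simp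
    | succ k ih =>
      intro v
      rw [pow_succ, Module.End.mul_apply, ih, hf, pow_succ, Matrix.mulVec_mulVec]
  have hnilp : LieModule.IsNilpotent (resL U hU W) W := by
    rw [LieModule.isNilpotent_iff_forall (R := K)]
    rintro ⟨f, A, hA, hf⟩
    obtain ⟨k, hk⟩ := hnil A hA
    refine ⟨k, ?_⟩
    have h1 : LieModule.toEnd K (resL U hU W) W ⟨f, A, hA, hf⟩ = f := by
      ext v
      rfl
    rw [h1]
    ext v
    rw [hpow A f hf k v, hk]
    simp
  have hnt : Nontrivial W := by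
    rw [Submodule.nontrivial_iff_ne_bot]
    exact hne
  have h2 : Nontrivial (LieModule.maxTrivSubmodule K (resL U hU W) W) :=
    LieModule.nontrivial_max_triv_of_isNilpotent K (resL U hU W) W
  obtain ⟨⟨v, hv⟩, hv0⟩ := exists_ne (0 : LieModule.maxTrivSubmodule K (resL U hU W) W)
  refine ⟨v, v.2, fun h => hv0 (by ext; exact congrFun h _), fun A hA => ?_⟩
  rw [LieModule.mem_maxTrivSubmodule] at hv
  have h3 : ∀ w ∈ W, A.mulVecLin w ∈ W := fun w hw => hW A hA w hw
  have h4 := hv ⟨A.mulVecLin.restrict h3, A, hA, fun w => rfl⟩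
  have h5 := congrArg (fun w : W => (w : Fin n → K)) h4
  exact h5

end H72

/-- Engel's theorem and semisimplicity -/
theorem st_ENG : ST_ENG := by
  intro K _ n U G _ r hbr hnil hconj hss
  have hinv : ∀ g : G, r g⁻¹ * r g = 1 := fun g => by rw [← map_mul, inv_mul_cancel, map_one]
  have hinv' : ∀ g : G, r g * r g⁻¹ = 1 := fun g => by rw [← map_mul, mul_inv_cancel, map_one]
  let W : Submodule K (Fin n → K) :=
    { carrier := {v | ∀ A ∈ U, A.mulVec v = 0}
      add_mem' := fun {v w} hv hw A hA => by rw [Matrix.mulVec_add, hv A hA, hw A hA, add_zero]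
      zero_mem' := fun A _ => Matrix.mulVec_zero A
      smul_mem' := fun c v hv A hA => by rw [Matrix.mulVec_smul, hv A hA, smul_zero] }
  have hW : ∀ v, v ∈ W ↔ ∀ A ∈ U, A.mulVec v = 0 := fun v => Iff.rfl
  have hG : ∀ g, ∀ v ∈ W, (r g).mulVec v ∈ W := by
    intro g v hv
    rw [hW] at hv ⊢
    intro A hA
    have h1 := hconj g⁻¹ A hA
    rw [inv_inv] at h1
    have h2 : A * r g = r g * (r g⁻¹ * A * r g) := by
      rw [← mul_assoc, ← mul_assoc, hinv', one_mul]
    rw [Matrix.mulVec_mulVec, h2, ← Matrix.mulVec_mulVec, hv _ h1, Matrix.mulVec_zero]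
  obtain ⟨_, W', hW', hcompl⟩ := hss W hG
  have hU' := (hss W' hW').1
  have hbot : W' = ⊥ := by
    by_contra hne
    obtain ⟨v, hv, hv0, hvk⟩ := H72.engel U hbr hnil W' hU' hne
    have h1 : v ∈ W ⊓ W' := ⟨(hW v).mpr hvk, hv⟩
    rw [hcompl.inf_eq_bot] at h1
    exact hv0 ((Submodule.mem_bot K).mp h1)
  have htop : W = ⊤ := by
    have := hcompl.sup_eq_top
    rwa [hbot, sup_bot_eq] at this
  rw [eq_bot_iff]
  intro A hA
  rw [Submodule.mem_bot]
  ext i j
  have h1 : (Pi.single j (1 : K) : Fin n → K) ∈ W := by rw [htop]; trivial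
  have h2 := congrFun ((hW _).mp h1 A hA) i
  rw [Matrix.mulVec_single_one] at h2
  exact h2

end HG
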