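import Pool.Agent.Helper6.HG.Defs

/-!
# Base change for tensors killed by a space of matrices
-/

set_option autoImplicit false

open NumberField MU MT HD

namespace HG

/-- base change for tensors killed by a space of matrices -/
theorem st_BC : ST_BC := by
  classical
  intro n a b U C _ _ t ht
  let β := Module.Basis.ofVectorSpace ℚ C
  let tk : Module.Basis.ofVectorSpaceIndex ℚ C → Tensor n a b ℚ := fun k i j => β.repr (t i j) k
  have htk : ∀ k, ∀ A ∈ U, Kill A (tk k) := by
    intro k A hA
    have h0 := ht A hA
    unfold Kill at h0 ⊢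
    ext p q
    have h1 := congrFun (congrFun h0 p) q
    rw [Matrix.mul_apply, Matrix.mul_apply, ← dtp_map, ← dtp_map] at h1
    simp only [Matrix.map_apply, Matrix.of_apply] at h1
    have h2 := congrArg (fun x => β.repr x k) h1
    simp only [map_sum, Finsupp.coe_finsetSum, Finset.sum_apply] at h2
    rw [Matrix.mul_apply, Matrix.mul_apply]
    simp only [Matrix.of_apply]
    refine Eq.trans ?_ (h2.trans ?_)
    · refine Finset.sum_congr rfl fun i _ => ?_
      rw [← Algebra.smul_def, map_smul, Finsupp.smul_apply, smul_eq_mul]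
    · refine Finset.sum_congr rfl fun j _ => ?_
      rw [mul_comm, ← Algebra.smul_def, map_smul, Finsupp.smul_apply, smul_eq_mul, mul_comm]
  let s : Finset (Module.Basis.ofVectorSpaceIndex ℚ C) :=
    Finset.univ.biUnion fun i : Fin a → Fin n =>
      Finset.univ.biUnion fun j : Fin b → Fin n => (β.repr (t i j)).support
  have hts : t = ∑ k ∈ s, β k • (tk k).base C := by
    funext i j
    rw [Finset.sum_apply, Finset.sum_apply]
    have h3 : t i j = ∑ k ∈ (β.repr (t i j)).support, (β.repr (t i j) k) • β k := by
      conv_lhs => rw [← β.linearCombination_repr (t i j)]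
      rfl
    rw [h3, Finset.sum_subset (s₂ := s)]
    · refine Finset.sum_congr rfl fun k _ => ?_
      rw [Pi.smul_apply, Pi.smul_apply, Algebra.smul_def, smul_eq_mul, mul_comm]
      unfold Tensor.base
      rw [eq_ratCast (algebraMap ℚ C)]
    · intro k hk
      rw [Finset.mem_biUnion]
      refine ⟨i, Finset.mem_univ _, ?_⟩
      rw [Finset.mem_biUnion]
      exact ⟨j, Finset.mem_univ _, hk⟩
    · intro k _ hk
      rw [Finsupp.notMem_support_iff.mp hk, zero_smul]
  rw [hts]
  refine Submodule.sum_mem _ fun k _ => Submodule.smul_mem _ _ (Submodule.subset_span ?_)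
  exact ⟨tk k, htk k, rfl⟩

end HG
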