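import Pool.Agent.Helper6.HG.Defs

/-!
# The Casimir element and its infinitesimal properties

The expansion lemmas extend those of `Pool.Agent.Helper18.HD.CAS` (helper18) to every field
extension.
-/

set_option autoImplicit false

open NumberField MU MT HD

namespace HG

namespace Cas2

open HD.CAS

variable {n d : ℕ}

/-- expansions in dual bases extend to the span over a field extension -/
theorem expandC (C : Type) [Field C] [Algebra ℚ C] (U : Submodule ℚ (Matrix (Fin n) (Fin n) ℚ))
    (A B : Fin d → Matrix (Fin n) (Fin n) ℚ) (h : ∀ X ∈ U, X = ∑ k, (X * B k).trace • A k) :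
    ∀ X ∈ spn C U, X = ∑ k, (X * (B k).map (algebraMap ℚ C)).trace •
      (A k).map (algebraMap ℚ C) := by
  intro X hX
  induction hX using Submodule.span_induction with
  | mem x hx =>
    obtain ⟨Y, hY, rfl⟩ := hx
    have h1 := congrArg (fun Z : Matrix (Fin n) (Fin n) ℚ => Z.map (algebraMap ℚ C)) (h Y hY)
    refine h1.trans ?_
    ext i j
    simp only [Matrix.map_apply, Matrix.sum_apply, Matrix.smul_apply, smul_eq_mul, map_sum,
      map_mul]
    refine Finset.sum_congr rfl fun k _ => ?_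
    rw [← Matrix.map_mul]
    congr 1
    simp only [Matrix.trace, Matrix.diag, Matrix.map_apply, map_sum]
  | zero => simp
  | add x y _ _ hx hy =>
    conv_lhs => rw [hx, hy]
    rw [← Finset.sum_add_distrib]
    refine Finset.sum_congr rfl fun k _ => ?_
    rw [← add_smul, add_mul, Matrix.trace_add]
  | smul c x _ hx =>
    conv_lhs => rw [hx]
    rw [Finset.smul_sum]
    refine Finset.sum_congr rfl fun k _ => ?_
    rw [Matrix.smul_mul, Matrix.trace_smul, smul_smul, smul_eq_mul]

theorem base_casC (C : Type) [Field C] [Algebra ℚ C] (A B : Fin d → Matrix (Fin n) (Fin n) ℚ) :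
    (cas A B).base C = cas (fun k => (A k).map (algebraMap ℚ C))
      (fun k => (B k).map (algebraMap ℚ C)) := by
  funext i j
  simp only [cas, Tensor.base, Matrix.map_apply]
  rw [← eq_ratCast (algebraMap ℚ C), map_sum]
  exact Finset.sum_congr rfl fun k _ => map_mul _ _ _

section Ring

variable {R : Type} [CommRing R]

theorem tpf_two (X Y : Matrix (Fin n) (Fin n) R) (i j : Fin 2 → Fin n) :
    tpf ![X, Y] i j = X (i 0) (j 0) * Y (i 1) (j 1) := by
  simp [tpf, Fin.prod_univ_two]

theorem dtp_two (x : Matrix (Fin n) (Fin n) R) : dtp 2 x = tpf ![x, 1] + tpf ![1, x] := by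
  unfold dtp
  rw [Fin.sum_univ_two]
  have h0 : Function.update (fun _ : Fin 2 => (1 : Matrix (Fin n) (Fin n) R)) 0 x = ![x, 1] := by
    funext s
    fin_cases s <;> simp
  have h1 : Function.update (fun _ : Fin 2 => (1 : Matrix (Fin n) (Fin n) R)) 1 x = ![1, x] := by
    funext s
    fin_cases s <;> simp
  rw [h0, h1]

theorem tpf_two_mul (X Y X' Y' : Matrix (Fin n) (Fin n) R) :
    tpf ![X, Y] * tpf ![X', Y'] = tpf ![X * X', Y * Y'] := by
  rw [tpf_mul]
  congr 1
  funext s
  fin_cases s <;> simp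

theorem of_cas (A B : Fin d → Matrix (Fin n) (Fin n) R) :
    (Matrix.of (cas A B) : Matrix (Fin 2 → Fin n) (Fin 2 → Fin n) R) = ∑ k, tpf ![A k, B k] := by
  ext i j
  rw [Matrix.sum_apply, Matrix.of_apply]
  unfold cas
  exact Finset.sum_congr rfl fun k _ => (tpf_two _ _ _ _).symm

/-- contraction of the second factor -/
def ctr (Z : Matrix (Fin n) (Fin n) R) (T : Matrix (Fin 2 → Fin n) (Fin 2 → Fin n) R) :
    Matrix (Fin n) (Fin n) R :=
  Matrix.of fun p q => ∑ c, ∑ e, T ![p, c] ![q, e] * Z e c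

theorem ctr_add (Z : Matrix (Fin n) (Fin n) R) (T T' : Matrix (Fin 2 → Fin n) (Fin 2 → Fin n) R) :
    ctr Z (T + T') = ctr Z T + ctr Z T' := by
  ext p q
  simp only [ctr, Matrix.of_apply, Matrix.add_apply, add_mul, Finset.sum_add_distrib]

theorem ctr_sum {ι : Type} (s : Finset ι) (Z : Matrix (Fin n) (Fin n) R)
    (T : ι → Matrix (Fin 2 → Fin n) (Fin 2 → Fin n) R) :
    ctr Z (∑ k ∈ s, T k) = ∑ k ∈ s, ctr Z (T k) := by
  classical
  induction s using Finset.induction_on with
  | empty =>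
    ext p q
    simp [ctr]
  | insert a s ha ih => rw [Finset.sum_insert ha, Finset.sum_insert ha, ctr_add, ih]

theorem ctr_tpf (Z X Y : Matrix (Fin n) (Fin n) R) :
    ctr Z (tpf ![X, Y]) = (Y * Z).trace • X := by
  ext p q
  simp only [ctr, Matrix.of_apply, tpf_two, Matrix.cons_val_zero, Matrix.cons_val_one,
    Matrix.smul_apply, smul_eq_mul, Matrix.trace, Matrix.diag, Matrix.mul_apply, Finset.sum_mul]
  refine Finset.sum_congr rfl fun c _ => Finset.sum_congr rfl fun e _ => by ring

theorem kill_cas {x : Matrix (Fin n) (Fin n) R} {A B : Fin d → Matrix (Fin n) (Fin n) R}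
    (h : Kill x (cas A B)) (Z : Matrix (Fin n) (Fin n) R) :
    (∑ k, (B k * Z).trace • (x * A k)) + ∑ k, (x * B k * Z).trace • A k =
      (∑ k, (B k * Z).trace • (A k * x)) + ∑ k, (B k * x * Z).trace • A k := by
  unfold Kill at h
  rw [of_cas, dtp_two, Finset.mul_sum, Finset.sum_mul] at h
  simp only [add_mul, mul_add, tpf_two_mul, one_mul, mul_one] at h
  have h2 := congrArg (ctr Z) h
  simp only [ctr_sum, ctr_add, ctr_tpf] at h2
  rw [Finset.sum_add_distrib, Finset.sum_add_distrib] at h2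
  exact h2

end Ring

/-- the Casimir element is fixed by the matrices which normalise the span (helper18) -/
theorem fix {U : Submodule ℚ (Matrix (Fin n) (Fin n) ℚ)} {A B : Fin d → Matrix (Fin n) (Fin n) ℚ}
    (hA : ∀ k, A k ∈ U) (hB : ∀ k, B k ∈ U)
    (hexA : ∀ X ∈ U, X = ∑ k, (X * B k).trace • A k)
    (hexB : ∀ X ∈ U, X = ∑ k, (X * A k).trace • B k)
    (hdual : ∀ k l, (A k * B l).trace = if k = l then 1 else 0)
    (g : Matrix.GeneralLinearGroup (Fin n) ℂ)
    (hg : ∀ X ∈ spn ℂ U, (g : Matrix (Fin n) (Fin n) ℂ) * X *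
      ((g⁻¹ : Matrix.GeneralLinearGroup (Fin n) ℂ) : Matrix (Fin n) (Fin n) ℂ) ∈ spn ℂ U)
    (hg' : ∀ X ∈ spn ℂ U, ((g⁻¹ : Matrix.GeneralLinearGroup (Fin n) ℂ) :
      Matrix (Fin n) (Fin n) ℂ) * X * (g : Matrix (Fin n) (Fin n) ℂ) ∈ spn ℂ U) :
    act g ((cas A B).base ℂ) = (cas A B).base ℂ := by
  rw [base_casC ℂ, act_cas]
  set G : Matrix (Fin n) (Fin n) ℂ := (g : Matrix (Fin n) (Fin n) ℂ) with hG
  set G' : Matrix (Fin n) (Fin n) ℂ :=
    ((g⁻¹ : Matrix.GeneralLinearGroup (Fin n) ℂ) : Matrix (Fin n) (Fin n) ℂ) with hG'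
  have eA := expandC ℂ U A B hexA
  have eB := expandC ℂ U B A hexB
  apply cas_eq
  · intro k
    exact eA _ (hg _ (mem_spn U (hA k)))
  · intro k
    exact eB _ (hg _ (mem_spn U (hB k)))
  · intro l m
    have h1 : ∀ X Y : Matrix (Fin n) (Fin n) ℂ, (G * X * G' * Y).trace =
        (X * (G' * Y * G)).trace := by
      intro X Y
      rw [Matrix.mul_assoc, Matrix.mul_assoc, Matrix.trace_mul_comm]
      congr 1
      simp only [Matrix.mul_assoc]
    have h2 : ∀ k, (G * (A k).map (algebraMap ℚ ℂ) * G' *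
        (B l).map (algebraMap ℚ ℂ)).trace * (G * (B k).map (algebraMap ℚ ℂ) * G' *
        (A m).map (algebraMap ℚ ℂ)).trace =
        ((((G' * (B l).map (algebraMap ℚ ℂ) * G) * (A k).map (algebraMap ℚ ℂ)).trace •
          (B k).map (algebraMap ℚ ℂ)) * (G' * (A m).map (algebraMap ℚ ℂ) * G)).trace := by
      intro k
      rw [h1, h1, Matrix.smul_mul, Matrix.trace_smul, smul_eq_mul,
        Matrix.trace_mul_comm ((A k).map (algebraMap ℚ ℂ))]
    simp only [h2]
    rw [← Matrix.trace_sum, ← Finset.sum_mul,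
      ← eB _ (hg' _ (mem_spn U (hB l)))]
    have hGG : G * G' = 1 := by
      rw [hG, hG', ← Units.val_mul, mul_inv_cancel, Units.val_one]
    have h3 : G' * (B l).map (algebraMap ℚ ℂ) * G * (G' * (A m).map (algebraMap ℚ ℂ) * G) =
        G' * ((B l).map (algebraMap ℚ ℂ) * (A m).map (algebraMap ℚ ℂ)) * G := by
      calc G' * (B l).map (algebraMap ℚ ℂ) * G * (G' * (A m).map (algebraMap ℚ ℂ) * G)
          = G' * (B l).map (algebraMap ℚ ℂ) * (G * G') * ((A m).map (algebraMap ℚ ℂ) * G) := by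
            simp only [Matrix.mul_assoc]
        _ = _ := by
            rw [hGG, Matrix.mul_one]
            simp only [Matrix.mul_assoc]
    rw [h3, Matrix.mul_assoc, Matrix.trace_mul_comm, Matrix.mul_assoc, hGG, Matrix.mul_one,
      ← Matrix.map_mul]
    have h4 : ((B l * A m).map (algebraMap ℚ ℂ)).trace = algebraMap ℚ ℂ (B l * A m).trace := by
      simp only [Matrix.trace, Matrix.diag, Matrix.map_apply, map_sum]
    rw [h4, Matrix.trace_mul_comm, hdual]
    by_cases hlm : l = m
    · rw [if_pos hlm, if_pos hlm.symm, map_one]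
    · rw [if_neg hlm, if_neg (Ne.symm hlm), map_zero]

end Cas2

open HD.CAS Cas2 in
/-- the Casimir element, with its infinitesimal properties -/
theorem st_CAS2 : ST_CAS2 := by
  intro n U hU
  obtain ⟨d, A, B, hA, hB, hexA, hexB, hdual⟩ := exists_dual U hU
  refine ⟨cas A B, fun g hg hg' => fix hA hB hexA hexB hdual g hg hg', ?_⟩
  intro C _ _
  have eA := expandC C U A B hexA
  have eB := expandC C U B A hexB
  refine ⟨?_, ?_, ?_⟩
  · intro x hx Z hZ
    rw [base_casC] at hx
    have h1 := kill_cas hx Z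
    have h2 : x * Z = ∑ k, ((B k).map (algebraMap ℚ C) * Z).trace •
        (x * (A k).map (algebraMap ℚ C)) := by
      conv_lhs => rw [eA Z hZ]
      rw [Finset.mul_sum]
      refine Finset.sum_congr rfl fun k _ => ?_
      rw [Matrix.mul_smul, Matrix.trace_mul_comm]
    have h3 : Z * x = ∑ k, ((B k).map (algebraMap ℚ C) * Z).trace •
        ((A k).map (algebraMap ℚ C) * x) := by
      conv_lhs => rw [eA Z hZ]
      rw [Finset.sum_mul]
      refine Finset.sum_congr rfl fun k _ => ?_
      rw [Matrix.smul_mul, Matrix.trace_mul_comm]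
    rw [← h2, ← h3] at h1
    have h4 : x * Z - Z * x = (∑ k, ((B k).map (algebraMap ℚ C) * x * Z).trace •
        (A k).map (algebraMap ℚ C)) - ∑ k, (x * (B k).map (algebraMap ℚ C) * Z).trace •
        (A k).map (algebraMap ℚ C) := by
      rw [sub_eq_sub_iff_add_eq_add, h1, add_comm]
    rw [h4]
    exact Submodule.sub_mem _
      (Submodule.sum_mem _ fun k _ => Submodule.smul_mem _ _ (mem_spn U (hA k)))
      (Submodule.sum_mem _ fun k _ => Submodule.smul_mem _ _ (mem_spn U (hA k)))
  · intro x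
    refine ⟨∑ k, (x * (B k).map (algebraMap ℚ C)).trace • (A k).map (algebraMap ℚ C),
      Submodule.sum_mem _ fun k _ => Submodule.smul_mem _ _ (mem_spn U (hA k)), ?_⟩
    intro Z hZ
    rw [sub_mul, Matrix.trace_sub, sub_eq_zero, Finset.sum_mul, Matrix.trace_sum]
    conv_lhs => rw [eB Z hZ]
    rw [Finset.mul_sum, Matrix.trace_sum]
    refine Finset.sum_congr rfl fun k _ => ?_
    rw [Matrix.mul_smul, Matrix.trace_smul, Matrix.smul_mul, Matrix.trace_smul, smul_eq_mul,
      smul_eq_mul, mul_comm, Matrix.trace_mul_comm Z]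
  · intro X hX h
    rw [eA X hX]
    refine Finset.sum_eq_zero fun k _ => ?_
    rw [h _ (mem_spn U (hB k)), zero_smul]

end HG
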