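import Pool.Agent.Helper6.HG.Defs3
import Pool.Agent.Helper3.MT.ZARS

/-!
# Replicas

`A` is a matrix over `K₀`, with the generalised eigenvalues `μ i` over the algebraically closed
field `C`; `φ` is an additive map. There is a polynomial `r` over `C` such that `B = r(A)` is
`φ (μ i)` on the generalised eigenspace of `μ i`. The derivation `ldv B` is `φ χ` on the generalised
eigenspace of `ldv A` for `χ`, hence it is locally a polynomial in `ldv A` and preserves the
subspaces stable under `ldv A`.
-/

set_option autoImplicit false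

open NumberField MU MT HD

namespace HG

namespace Rpl

section Lin

variable {C : Type} [Field C]

/-- interpolation -/
theorem crt (s : Finset C) (k : ℕ) (g : C → C) : ∃ r : Polynomial C, ∀ μ ∈ s,
    (Polynomial.X - Polynomial.C μ) ^ k ∣ r - Polynomial.C (g μ) := by
  classical
  obtain ⟨r, hr⟩ := Ideal.exists_forall_sub_mem_ideal
    (I := fun μ : s => Ideal.span {(Polynomial.X - Polynomial.C (μ : C)) ^ k})
    (fun μ ν h => by
      show IsCoprime (Ideal.span _) (Ideal.span _)
      rw [Ideal.isCoprime_span_singleton_iff]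
      exact (Polynomial.isCoprime_X_sub_C_of_isUnit_sub
        (isUnit_iff_ne_zero.mpr (sub_ne_zero.mpr fun h' => h (Subtype.ext h')))).pow)
    (fun μ => Polynomial.C (g μ))
  exact ⟨r, fun μ hμ => Ideal.mem_span_singleton.mp (hr ⟨μ, hμ⟩)⟩

theorem aeval_of_dvd {V : Type} [AddCommGroup V] [Module C V] (T : Module.End C V)
    (r : Polynomial C) (μ c : C) (k : ℕ)
    (h : (Polynomial.X - Polynomial.C μ) ^ k ∣ r - Polynomial.C c) (v : V)
    (hv : ((T - μ • 1) ^ k) v = 0) : (Polynomial.aeval T r) v = c • v := by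
  obtain ⟨q, hq⟩ := h
  have h1 := congrArg (Polynomial.aeval T) hq
  rw [map_sub, Polynomial.aeval_C, mul_comm, map_mul, map_pow, map_sub, Polynomial.aeval_X,
    Polynomial.aeval_C, Algebra.algebraMap_eq_smul_one, Algebra.algebraMap_eq_smul_one] at h1
  have h2 := congrArg (fun f : Module.End C V => f v) h1
  simp only [LinearMap.sub_apply, LinearMap.smul_apply, Module.End.one_apply,
    Module.End.mul_apply, hv, map_zero] at h2
  exact sub_eq_zero.mp h2

theorem exists_basis [IsAlgClosed C] {n : ℕ} (a : Module.End C (Fin n → C)) :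
    ∃ (b : Module.Basis (Fin n) C (Fin n → C)) (μ : Fin n → C),
      ∀ i, ((a - μ i • 1) ^ n) (b i) = 0 := by
  have htop := Module.End.iSup_maxGenEigenspace_eq_top a
  rw [Submodule.iSup_eq_span] at htop
  obtain ⟨t, ht, hspan, hli⟩ := exists_linearIndependent C
    (⋃ μ : C, (a.maxGenEigenspace μ : Set (Fin n → C)))
  rw [htop] at hspan
  let b0 : Module.Basis t C (Fin n → C) := Module.Basis.mk hli (by
    rw [Subtype.range_coe, hspan])
  let e := b0.indexEquiv (Pi.basisFun C (Fin n))
  have hmem : ∀ i, ∃ μ : C, ((a - μ • 1) ^ n) ((b0.reindex e) i) = 0 := by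
    intro i
    have h1 : (b0.reindex e) i = ((e.symm i : t) : Fin n → C) := by
      rw [Module.Basis.reindex_apply, Module.Basis.mk_apply]
    obtain ⟨μ, hμ⟩ := Set.mem_iUnion.mp (ht (e.symm i).2)
    refine ⟨μ, ?_⟩
    rw [h1]
    rw [SetLike.mem_coe, Module.End.maxGenEigenspace_eq_genEigenspace_finrank,
      Module.End.mem_genEigenspace_nat, Module.finrank_fin_fun] at hμ
    exact hμ
  choose μ hμ using hmem
  exact ⟨b0.reindex e, μ, hμ⟩

/-- the trace of `a r(a)` -/
theorem trace_eq {n : ℕ} (a : Module.End C (Fin n → C))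
    (b : Module.Basis (Fin n) C (Fin n → C)) (μ : Fin n → C)
    (hb : ∀ i, ((a - μ i • 1) ^ n) (b i) = 0) (g : C → C) (r : Polynomial C)
    (hr : ∀ i, (Polynomial.X - Polynomial.C (μ i)) ^ n ∣ r - Polynomial.C (g (μ i))) :
    LinearMap.trace C (Fin n → C) (a * Polynomial.aeval a r) = ∑ i, μ i * g (μ i) := by
  classical
  obtain ⟨r0, hr0⟩ := crt (Finset.univ.image μ) n (fun x => x)
  have hr0' : ∀ i, (Polynomial.X - Polynomial.C (μ i)) ^ n ∣ r0 - Polynomial.C (μ i) :=
    fun i => hr0 (μ i) (Finset.mem_image_of_mem μ (Finset.mem_univ i))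
  have hs : ∀ i, Polynomial.aeval a r0 (b i) = μ i • b i :=
    fun i => aeval_of_dvd a r0 (μ i) (μ i) n (hr0' i) (b i) (hb i)
  have hβ : ∀ i, Polynomial.aeval a r (b i) = g (μ i) • b i :=
    fun i => aeval_of_dvd a r (μ i) (g (μ i)) n (hr i) (b i) (hb i)
  -- the nilpotent part
  have hN : Polynomial.aeval a ((Polynomial.X - r0) * r) ^ n = 0 := by
    refine b.ext fun i => ?_
    have hn : n ≠ 0 := fun h => by subst h; exact i.elim0
    have h1 : (Polynomial.X - Polynomial.C (μ i)) ∣ (Polynomial.X - r0) * r := by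
      have h2 : (Polynomial.X - Polynomial.C (μ i)) ∣ r0 - Polynomial.C (μ i) :=
        (dvd_pow_self _ hn).trans (hr0' i)
      have h3 : (Polynomial.X - r0) = (Polynomial.X - Polynomial.C (μ i)) -
          (r0 - Polynomial.C (μ i)) := by ring
      rw [h3]
      exact Dvd.dvd.mul_right (dvd_sub dvd_rfl h2) r
    have h4 : (Polynomial.X - Polynomial.C (μ i)) ^ n ∣
        ((Polynomial.X - r0) * r) ^ n - Polynomial.C 0 := by
      rw [Polynomial.C_0, sub_zero]
      exact pow_dvd_pow_of_dvd h1 n
    rw [← map_pow, aeval_of_dvd a _ (μ i) 0 n h4 (b i) (hb i), zero_smul, LinearMap.zero_apply]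
  have htr : LinearMap.trace C (Fin n → C) (Polynomial.aeval a ((Polynomial.X - r0) * r)) = 0 :=
    (LinearMap.isNilpotent_trace_of_isNilpotent ⟨n, hN⟩).eq_zero
  have h1 : a * Polynomial.aeval a r = Polynomial.aeval a r0 * Polynomial.aeval a r +
      Polynomial.aeval a ((Polynomial.X - r0) * r) := by
    rw [map_mul, map_sub, Polynomial.aeval_X, sub_mul, add_sub_cancel]
  rw [h1, map_add, htr, add_zero, LinearMap.trace_eq_matrix_trace C b]
  unfold Matrix.trace
  refine Finset.sum_congr rfl fun i _ => ?_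
  rw [Matrix.diag_apply, LinearMap.toMatrix_apply, Module.End.mul_apply, hβ, map_smul, hs,
    smul_smul, map_smul, Module.Basis.repr_self]
  simp [mul_comm]

end Lin

section Der

open MvPolynomial

variable {C : Type} [Field C] {n : ℕ}

/-- the linear form in the variables of the row `i` with coefficients `v` -/
noncomputable def yv (i : Fin n) : (Fin n → C) →ₗ[C] MvPolynomial (Fin n × Fin n) C :=
  ∑ k, (LinearMap.proj k : (Fin n → C) →ₗ[C] C).smulRight (X (i, k))

theorem yv_apply (i : Fin n) (v : Fin n → C) : yv i v = ∑ k, v k • X (i, k) := by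
  unfold yv
  rw [LinearMap.sum_apply]
  rfl

theorem ldv_yv (M : Matrix (Fin n) (Fin n) C) (i : Fin n) (v : Fin n → C) :
    ldv M (yv i v) = yv i (M.mulVec v) := by
  rw [yv_apply, yv_apply, map_sum]
  have h1 : ∀ k, ldv M (v k • X (i, k)) = ∑ l, (M l k * v k) • X (i, l) := by
    intro k
    rw [Derivation.map_smul]
    unfold ldv
    rw [mkDerivation_X, Finset.smul_sum]
    refine Finset.sum_congr rfl fun l _ => ?_
    rw [mul_comm (X (i, l)), ← smul_eq_C_mul, smul_smul, mul_comm]
  simp only [h1]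
  rw [Finset.sum_comm]
  refine Finset.sum_congr rfl fun l _ => ?_
  rw [← Finset.sum_smul]
  rfl

/-- a derivation as an endomorphism -/
noncomputable abbrev en (D : Derivation C (MvPolynomial (Fin n × Fin n) C)
    (MvPolynomial (Fin n × Fin n) C)) : Module.End C (MvPolynomial (Fin n × Fin n) C) :=
  (D : MvPolynomial (Fin n × Fin n) C →ₗ[C] MvPolynomial (Fin n × Fin n) C)

theorem en_mul (D : Derivation C (MvPolynomial (Fin n × Fin n) C)
      (MvPolynomial (Fin n × Fin n) C)) (a b : C) (f g : MvPolynomial (Fin n × Fin n) C) :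
    (en D - (a + b) • 1) (f * g) = ((en D - a • 1) f) * g + f * ((en D - b • 1) g) := by
  simp only [LinearMap.sub_apply, LinearMap.smul_apply, Module.End.one_apply,
    Derivation.coeFn_coe, Derivation.leibniz, smul_eq_mul, smul_eq_C_mul, C_add]
  ring

/-- product rule for the powers of `D - a - b` -/
theorem pow_mul_zero (D : Derivation C (MvPolynomial (Fin n × Fin n) C)
      (MvPolynomial (Fin n × Fin n) C)) (a b : C) :
    ∀ (m k l : ℕ) (f g : MvPolynomial (Fin n × Fin n) C), k + l ≤ m →
      ((en D - a • 1) ^ k) f = 0 → ((en D - b • 1) ^ l) g = 0 →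
      ((en D - (a + b) • 1) ^ m) (f * g) = 0 := by
  intro m
  induction m with
  | zero =>
    intro k l f g h hf hg
    have hk : k = 0 := by omega
    subst hk
    rw [pow_zero, Module.End.one_apply] at hf
    rw [hf, zero_mul, map_zero]
  | succ m ih =>
    intro k l f g h hf hg
    rcases Nat.eq_zero_or_pos k with hk | hk
    · subst hk
      rw [pow_zero, Module.End.one_apply] at hf
      rw [hf, zero_mul, map_zero]
    rcases Nat.eq_zero_or_pos l with hl | hl
    · subst hl
      rw [pow_zero, Module.End.one_apply] at hg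
      rw [hg, mul_zero, map_zero]
    obtain ⟨k, rfl⟩ : ∃ k', k = k' + 1 := ⟨k - 1, by omega⟩
    obtain ⟨l, rfl⟩ : ∃ l', l = l' + 1 := ⟨l - 1, by omega⟩
    have hf' : ((en D - a • 1) ^ k) ((en D - a • 1) f) = 0 := by
      rw [← Module.End.mul_apply, ← pow_succ]; exact hf
    have hg' : ((en D - b • 1) ^ l) ((en D - b • 1) g) = 0 := by
      rw [← Module.End.mul_apply, ← pow_succ]; exact hg
    rw [pow_succ, Module.End.mul_apply, en_mul, map_add,
      ih k (l + 1) _ g (by omega) hf' hg, ih (k + 1) l f _ (by omega) hf hg', add_zero]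

/-- the common generalised eigenspaces -/
noncomputable def Sp (T D : Derivation C (MvPolynomial (Fin n × Fin n) C)
    (MvPolynomial (Fin n × Fin n) C)) (φ : C →+ C) (χ : C) :
    Submodule C (MvPolynomial (Fin n × Fin n) C) :=
  (en T).maxGenEigenspace χ ⊓ (en D).eigenspace (φ χ)

variable {T D : Derivation C (MvPolynomial (Fin n × Fin n) C)
    (MvPolynomial (Fin n × Fin n) C)} {φ : C →+ C}

theorem mem_Sp {χ : C} {f : MvPolynomial (Fin n × Fin n) C} :
    f ∈ Sp T D φ χ ↔ (∃ k : ℕ, ((en T - χ • 1) ^ k) f = 0) ∧ D f = φ χ • f := by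
  unfold Sp
  rw [Submodule.mem_inf, Module.End.mem_maxGenEigenspace, Module.End.mem_eigenspace_iff]
  rfl

theorem Sp_mul {χ χ' : C} {f g : MvPolynomial (Fin n × Fin n) C} (hf : f ∈ Sp T D φ χ)
    (hg : g ∈ Sp T D φ χ') : f * g ∈ Sp T D φ (χ + χ') := by
  rw [mem_Sp] at hf hg ⊢
  obtain ⟨⟨k, hk⟩, hf⟩ := hf
  obtain ⟨⟨l, hl⟩, hg⟩ := hg
  refine ⟨⟨k + l, pow_mul_zero T χ χ' (k + l) k l f g le_rfl hk hl⟩, ?_⟩
  rw [Derivation.leibniz, hf, hg, map_add, smul_eq_mul, smul_eq_mul, add_smul, mul_smul_comm,
    mul_smul_comm, mul_comm g f, add_comm]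

theorem Sp_one : (1 : MvPolynomial (Fin n × Fin n) C) ∈ Sp T D φ 0 := by
  rw [mem_Sp]
  refine ⟨⟨1, ?_⟩, ?_⟩
  · rw [pow_one, zero_smul, sub_zero]
    exact T.map_one_eq_zero
  · rw [map_zero, zero_smul]
    exact D.map_one_eq_zero

/-- the common generalised eigenspaces span everything if they span the variables -/
theorem iSup_Sp (hX : ∀ ij, X ij ∈ ⨆ χ, Sp T D φ χ) : ⨆ χ, Sp T D φ χ = ⊤ := by
  have hmul : ∀ f ∈ ⨆ χ, Sp T D φ χ, ∀ g ∈ ⨆ χ, Sp T D φ χ, f * g ∈ ⨆ χ, Sp T D φ χ := by
    have h1 : (⨆ χ, Sp T D φ χ) * (⨆ χ, Sp T D φ χ) ≤ ⨆ χ, Sp T D φ χ := by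
      rw [Submodule.iSup_mul]
      refine iSup_le fun χ => ?_
      rw [Submodule.mul_iSup]
      refine iSup_le fun χ' => ?_
      rw [Submodule.mul_le]
      intro f hf g hg
      exact Submodule.mem_iSup_of_mem (χ + χ') (Sp_mul hf hg)
    exact fun f hf g hg => h1 (Submodule.mul_mem_mul hf hg)
  rw [eq_top_iff]
  intro f _
  induction f using MvPolynomial.induction_on with
  | C a =>
    have h1 : (MvPolynomial.C a : MvPolynomial (Fin n × Fin n) C) = a • 1 := by
      rw [smul_eq_C_mul, mul_one]
    rw [h1]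
    exact Submodule.smul_mem _ _ (Submodule.mem_iSup_of_mem 0 Sp_one)
  | add p q hp hq => exact Submodule.add_mem _ (hp trivial) (hq trivial)
  | mul_X p ij hp => exact hmul _ (hp trivial) _ (hX ij)

theorem aeval_mem (p : Submodule C (MvPolynomial (Fin n × Fin n) C)) (hp : ∀ f ∈ p, T f ∈ p)
    (r : Polynomial C) (f : MvPolynomial (Fin n × Fin n) C) (hf : f ∈ p) :
    Polynomial.aeval (en T) r f ∈ p := by
  have hpow : ∀ k : ℕ, (en T ^ k) f ∈ p := by
    intro k
    induction k with
    | zero => rw [pow_zero, Module.End.one_apply]; exact hf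
    | succ k ih => rw [pow_succ', Module.End.mul_apply]; exact hp _ ih
  rw [Polynomial.aeval_eq_sum_range, LinearMap.sum_apply]
  exact Submodule.sum_mem _ fun k _ => Submodule.smul_mem _ _ (hpow k)

/-- the replica preserves the stable subspaces -/
theorem stable (htop : ⨆ χ, Sp T D φ χ = ⊤) (p : Submodule C (MvPolynomial (Fin n × Fin n) C))
    (hp : ∀ f ∈ p, T f ∈ p) (f : MvPolynomial (Fin n × Fin n) C) (hf : f ∈ p) : D f ∈ p := by
  classical
  have h1 : f ∈ ⨆ χ, Sp T D φ χ := by rw [htop]; trivial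
  obtain ⟨G, hG, hsum⟩ := (Submodule.mem_iSup_iff_exists_finsupp _ _).mp h1
  have hG' : ∀ χ, (∃ k : ℕ, ((en T - χ • 1) ^ k) (G χ) = 0) ∧ D (G χ) = φ χ • G χ :=
    fun χ => mem_Sp.mp (hG χ)
  choose k hk using fun χ => (hG' χ).1
  obtain ⟨r, hr⟩ := crt G.support (G.support.sup k) φ
  have h2 : ∀ χ ∈ G.support, Polynomial.aeval (en T) r (G χ) = φ χ • G χ := by
    intro χ hχ
    refine aeval_of_dvd (en T) r χ (φ χ) _ (hr χ hχ) _ ?_
    obtain ⟨m, hm⟩ := Nat.exists_eq_add_of_le (Finset.le_sup (f := k) hχ)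
    rw [hm, add_comm, pow_add, Module.End.mul_apply, hk χ, map_zero]
  have h3 : D f = Polynomial.aeval (en T) r f := by
    rw [← hsum]
    unfold Finsupp.sum
    rw [map_sum, map_sum]
    exact Finset.sum_congr rfl fun χ hχ => by rw [h2 χ hχ, (hG' χ).2]
  rw [h3]
  exact aeval_mem p hp r f hf

end Der

section Base

open MvPolynomial

variable {K₀ C : Type} [Field K₀] [Field C] [Algebra K₀ C] {n : ℕ}

theorem ldv_map (A : Matrix (Fin n) (Fin n) K₀) (f : MvPolynomial (Fin n × Fin n) K₀) :
    ldv (A.map (algebraMap K₀ C)) (map (algebraMap K₀ C) f) =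
      map (algebraMap K₀ C) (ldv A f) := by
  induction f using MvPolynomial.induction_on with
  | C a =>
    rw [map_C, derivation_C, derivation_C, map_zero]
  | add p q hp hq => rw [map_add, map_add, hp, hq, map_add, map_add]
  | mul_X p ij hp =>
    rw [map_mul, map_X, Derivation.leibniz, Derivation.leibniz, hp, map_add, smul_eq_mul,
      smul_eq_mul, smul_eq_mul, smul_eq_mul, map_mul, map_mul, map_X]
    congr 2
    unfold ldv
    rw [mkDerivation_X, mkDerivation_X, map_sum]
    refine Finset.sum_congr rfl fun k _ => ?_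
    rw [map_mul, map_X, map_C, Matrix.map_apply]

theorem ev_map_one (f : MvPolynomial (Fin n × Fin n) K₀) :
    ev (K₀ := C) (1 : Matrix (Fin n) (Fin n) C) (map (algebraMap K₀ C) f) =
      algebraMap K₀ C (ev (K₀ := K₀) (1 : Matrix (Fin n) (Fin n) K₀) f) := by
  induction f using MvPolynomial.induction_on with
  | C a => rw [map_C, ev_C, ev_C]; rfl
  | add p q hp hq => rw [map_add, map_add, hp, hq, map_add, map_add]
  | mul_X p ij hp =>
    rw [map_mul, map_mul, map_X, hp, ev_X, map_mul, map_mul, ev_X]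
    congr 1
    by_cases h : ij.1 = ij.2
    · rw [h, Matrix.one_apply_eq, Matrix.one_apply_eq, map_one]
    · rw [Matrix.one_apply_ne h, Matrix.one_apply_ne h, map_zero]

end Base

end Rpl

open Rpl in
open MvPolynomial in
/-- replicas -/
theorem st_RPL : ST_RPL := by
  classical
  intro K₀ C _ _ _ _ _ n A
  set AC : Matrix (Fin n) (Fin n) C := A.map (algebraMap K₀ C) with hAC
  set a : Module.End C (Fin n → C) := Matrix.toLinAlgEquiv' AC with ha
  obtain ⟨b, μ, hb⟩ := exists_basis a
  refine ⟨μ, fun hμ => ?_, fun φ => ?_⟩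
  · have h1 : a ^ n = 0 := by
      refine b.ext fun i => ?_
      have := hb i
      rw [hμ i, zero_smul, sub_zero] at this
      rw [this, LinearMap.zero_apply]
    rw [ha, ← map_pow] at h1
    have h2 : AC ^ n = 0 := by
      apply (Matrix.toLinAlgEquiv' (R := C) (n := Fin n)).injective
      rw [h1, map_zero]
    refine ⟨n, ?_⟩
    ext i j
    apply (algebraMap K₀ C).injective
    have h3 := congrFun (congrFun h2 i) j
    rw [hAC, ← Matrix.map_pow] at h3
    rw [Matrix.zero_apply, map_zero]
    exact h3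
  · obtain ⟨r, hr⟩ := crt (Finset.univ.image μ) n φ
    have hr' : ∀ i, (Polynomial.X - Polynomial.C (μ i)) ^ n ∣ r - Polynomial.C (φ (μ i)) :=
      fun i => hr (μ i) (Finset.mem_image_of_mem μ (Finset.mem_univ i))
    set B : Matrix (Fin n) (Fin n) C := Polynomial.aeval AC r with hB
    have hBa : Matrix.toLinAlgEquiv' B = Polynomial.aeval a r := by
      rw [hB, ha]
      exact (Polynomial.aeval_algHom_apply
        (Matrix.toLinAlgEquiv' (R := C) (n := Fin n)).toAlgHom AC r).symm
    have hBb : ∀ i, B.mulVec (b i) = φ (μ i) • b i := by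
      intro i
      rw [← Matrix.toLinAlgEquiv'_apply, hBa]
      exact aeval_of_dvd a r (μ i) (φ (μ i)) n (hr' i) (b i) (hb i)
    have hY : ∀ (i k : Fin n), yv i (b k) ∈ Sp (ldv AC) (ldv B) φ (μ k) := by
      intro i k
      rw [mem_Sp]
      constructor
      · refine ⟨n, ?_⟩
        have h1 : ∀ (m : ℕ) (v : Fin n → C), ((en (ldv AC) - μ k • 1) ^ m) (yv i v) =
            yv i (((a - μ k • 1) ^ m) v) := by
          intro m
          induction m with
          | zero => intro v; rw [pow_zero, pow_zero, Module.End.one_apply, Module.End.one_apply]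
          | succ m ih =>
            intro v
            rw [pow_succ, pow_succ, Module.End.mul_apply, Module.End.mul_apply, ← ih]
            congr 1
            simp only [LinearMap.sub_apply, LinearMap.smul_apply, Module.End.one_apply,
              Derivation.coeFn_coe, ldv_yv, map_sub, map_smul, ha, Matrix.toLinAlgEquiv'_apply]
        rw [h1, hb, map_zero]
      · rw [ldv_yv, hBb, map_smul]
    have hX : ∀ ij : Fin n × Fin n, (X ij : MvPolynomial (Fin n × Fin n) C) ∈
        ⨆ χ, Sp (ldv AC) (ldv B) φ χ := by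
      rintro ⟨i, j⟩
      have h1 : (X (i, j) : MvPolynomial (Fin n × Fin n) C) = yv i (Pi.single j 1) := by
        rw [yv_apply, Finset.sum_eq_single j]
        · rw [Pi.single_eq_same, one_smul]
        · intro k _ hk
          rw [Pi.single_eq_of_ne hk, zero_smul]
        · intro h
          exact absurd (Finset.mem_univ _) h
      rw [h1, ← b.sum_repr (Pi.single j 1), map_sum]
      refine Submodule.sum_mem _ fun k _ => ?_
      rw [map_smul]
      exact Submodule.smul_mem _ _ (Submodule.mem_iSup_of_mem (μ k) (hY i k))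
    have htop := iSup_Sp hX
    refine ⟨B, fun X hA f hf => ?_, ?_⟩
    · obtain ⟨-, -, hldv, -, -⟩ := st_ZAR K₀ n X
      let p : Submodule C (MvPolynomial (Fin n × Fin n) C) :=
        Submodule.span C {g | ∃ f : MvPolynomial (Fin n × Fin n) K₀,
          (∀ x ∈ X, ev (x : Matrix (Fin n) (Fin n) K₀) f = 0) ∧ g = map (algebraMap K₀ C) f}
      have hp : ∀ g ∈ p, ldv AC g ∈ p := by
        intro g hg
        induction hg using Submodule.span_induction with
        | mem g hg =>
          obtain ⟨f, hf, rfl⟩ := hg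
          exact Submodule.subset_span ⟨ldv A f, hldv A hA f hf, ldv_map A f⟩
        | zero => rw [map_zero]; exact p.zero_mem
        | add g g' _ _ hg hg' => rw [map_add]; exact p.add_mem hg hg'
        | smul c g _ hg => rw [Derivation.map_smul]; exact p.smul_mem c hg
      have hp1 : ∀ g ∈ p, ev (K₀ := C) (1 : Matrix (Fin n) (Fin n) C) g = 0 := by
        intro g hg
        induction hg using Submodule.span_induction with
        | mem g hg =>
          obtain ⟨f, hf, rfl⟩ := hg
          have h1 := hf 1 X.one_mem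
          rw [Units.val_one] at h1
          rw [ev_map_one, h1, map_zero]
        | zero => rw [map_zero]
        | add g g' _ _ hg hg' => rw [map_add, hg, hg', add_zero]
        | smul c g _ hg => rw [map_smul, hg, smul_zero]
      have h1 := hp1 _ (stable htop p hp (map (algebraMap K₀ C) f)
        (Submodule.subset_span ⟨f, hf, rfl⟩))
      rw [ev_one_ldv] at h1
      rw [← h1]
      refine Finset.sum_congr rfl fun i _ => Finset.sum_congr rfl fun j _ => ?_
      rw [pderiv_map, ev_map_one]
    · have h1 : (AC * B).trace = LinearMap.trace C (Fin n → C) (a * Polynomial.aeval a r) := by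
        rw [← hBa, ha, ← map_mul]
        exact (Matrix.trace_toLin'_eq _).symm
      rw [h1]
      exact trace_eq a b μ hb φ r hr'

end HG
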